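import Pool.Agent.Helper85.FI.Final

/-!
# Doubles along subgroups of finite index

For every group `Γ` with separable finitely generated subgroups and every subgroup `A` of finite
index all finitely presented subgroups of the double `Γ *_A Γ` are separable, although (for
index at least three and `Γ` containing a free group of rank two) some finitely generated
subgroup is not.
-/

open Helper85.NS Helper85.FI Function

namespace Pool.Agent.Results.MP_fc0d7e_gt.FiniteIndexDouble

theorem result (Γ : Type) [Group Γ] (hΓ : LERF Γ) (A : Subgroup Γ) (hA : A.FiniteIndex) :
    (∀ H : Subgroup (Amalgam A.subtype A.subtype), Group.IsFinitelyPresented H → Separable H) ∧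
    (3 ≤ A.index → (∃ f : FreeGroup (Fin 2) →* Γ, Injective f) →
      ∃ L : Subgroup (Amalgam A.subtype A.subtype), L.FG ∧ ¬ Separable L) :=
  final.1 Γ hΓ A hA

end Pool.Agent.Results.MP_fc0d7e_gt.FiniteIndexDouble
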